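import Pool.Agent.V1157.GA.Tate

/-!
# The Galois group algebra acts with unbounded ranks on non-algebraic Tate classes

Let `F` be a number field with absolute Galois group `G`, fix a dimension `n` and a codimension `r`,
and let `f` be any non-zero element of the group algebra `ℚ_ℓ[G]`, for example `1 - c` or `1 + c`
for a complex conjugation `c`. For a variety `X` over `F` of dimension `n` let `T(X)` be the space of
classes in `H^{2r}(X_k, ℚ_ℓ(r))` which are fixed by a subgroup of finite index of `G`, and `A(X)` the
subspace of algebraic classes. If the rank of `f` on `T(X) / A(X)` is at most `D`, for all `X`, then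
`T(X) = A(X)` for all `X`.

Proof: let `t` be a Tate class on `S`. Choose `h₀` in the support of `f` and a subgroup `U` of finite
index containing no `h⁻¹ h₀`, `h ≠ h₀` in the support. Let `V` over `F` be a complete intersection,
of dimension `n`, in the restriction of scalars of `S^(D+1)` from the fixed field of `U`; it has
projections `p i m : V ⟶ S` over `k`, `i ∈ G/U`, `m ≤ D`, which are permuted by `G`. Put
`t_m = (p 1 m)^* t`. If `∑ c_m f t_m` is algebraic then so is its push-forward by `p h₀ m`. But
`(p h₀ m)_* h t_m' = h (p (h⁻¹ h₀) m)_* (p 1 m')^* t` is algebraic unless `h = h₀` and `m' = m`, and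
in this case it is a multiple of `h₀ t`.
-/

open CategoryTheory AlgebraicGeometry

universe u v w x y

namespace Pool.Agent.Results.MP_97f789_ag.GroupAlgebraRanks

open Pool.Agent.H914 Pool.Agent.H914.VarClass Pool.Agent.H914.VarClass.Obj Pool.Agent.W492.BB
  Pool.Agent.TH133 Pool.Agent.V1157.GA

theorem result {k : Type u} [Field k] {𝒱 : VarClass k} {C : TheoryData.{u, v, 0} 𝒱 ℚ}
    [IsChowProj C] {K : Type w} [Field K] [CharZero K] (H : WeilTheoryData.{u, v, w} C K)
    [IsWeilProj H] {G : Type x} [Group G] (R : Forms.{u, v, w, x, y} G H.toTheoryData)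
    (hR : IsGalois R 2) (hcl : CyclesStable H R) (n r : ℕ) (hP : HasTwistedPowers R C n)
    (f : G →₀ K) (hf : f ≠ 0) :
    TateConj H R n r ↔ ∃ D, TateRankAtMost H R n r f D :=
  ⟨fun h => ⟨0, rank_of_tate hcl h f⟩, fun ⟨_, hD⟩ => tate_of_rank hR hcl hP hf hD⟩

end Pool.Agent.Results.MP_97f789_ag.GroupAlgebraRanks
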